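import Mathlib
import Pool.Agent.Lib.P238593.Main

set_option autoImplicit false

open Cardinal

namespace Pool.Agent.Results.MP_238593_lc.ManyColours

/-- The polarized relation `(μ⁺, μ) → (μ⁺, μ)` for two colours: every `c : μ⁺ × μ → {0, 1}` is
constant on some `A × B` with `|A| = μ⁺`, `|B| = μ`. -/
def PolRel (μ : Cardinal.{0}) : Prop :=
  ∀ (X Y : Type), #X = Order.succ μ → #Y = μ →
    ∀ c : X → Y → Bool, ∃ A : Set X, ∃ B : Set Y,
      #A = Order.succ μ ∧ #B = μ ∧ ∃ i : Bool, ∀ a ∈ A, ∀ b ∈ B, c a b = i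

/-- The polarized relation for `ν` colours: for every `c : μ⁺ × μ → ν` there are `A`, `B` with
`|A| = μ⁺`, `|B| = μ` such that on `A × B` the colour of `(a, b)` depends on `b` only. -/
def PolRelN (μ ν : Cardinal.{0}) : Prop :=
  ∀ (X Y Z : Type), #X = Order.succ μ → #Y = μ → #Z = ν →
    ∀ c : X → Y → Z, ∃ A : Set X, ∃ B : Set Y,
      #A = Order.succ μ ∧ #B = μ ∧ ∀ a ∈ A, ∀ a' ∈ A, ∀ b ∈ B, c a b = c a' b

/-- `S` meets every closed unbounded subset of `κ`. -/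
def Stationary (κ : Cardinal.{0}) (S : Set Cardinal.{0}) : Prop :=
  ∀ C : Set Ordinal.{0}, (∀ α ∈ C, α < κ.ord) →
    (∀ α < κ.ord, ∃ β ∈ C, α ≤ β) →
    (∀ α < κ.ord, Order.IsSuccLimit α →
      (∀ β < α, ∃ γ ∈ C, β ≤ γ ∧ γ < α) → α ∈ C) →
    ∃ μ ∈ S, μ.ord ∈ C

theorem polRelN_iff (μ ν : Cardinal.{0}) (Z : Type) (hZ : #Z = ν) :
    PolRelN μ ν ↔ P238593.Equalizes μ Z := by
  constructor
  · intro H X Y hX hY c
    exact H X Y Z hX hY hZ c
  · intro H X Y Z' hX hY hZ' c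
    exact P238593.Equalizes.anti (Z := Z') (Z' := Z) (by rw [hZ, hZ']) H X Y hX hY c

/-- For two colours `PolRelN` is the relation of the problem. Let `κ` have uncountable cofinality
and `ν ^ cf κ < κ` for all `ν < κ`, and let `S` be stationary in `κ`. If for every `μ ∈ S` the
relation at `μ` fails for some number `ν < μ` of colours, `ν ≤ lam`, then the relation at `κ` fails
for some number `ν < κ` of colours, `ν ≤ lam ^ cf κ`. -/
theorem result :
    (∀ μ : Cardinal.{0}, ℵ₀ ≤ μ → (PolRel μ ↔ PolRelN μ 2)) ∧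
    ∀ κ : Cardinal.{0}, ℵ₀ < κ.ord.cof → (∀ ν < κ, ν ^ κ.ord.cof < κ) →
      ∀ S : Set Cardinal.{0}, Stationary κ S →
        ∀ lam : Cardinal.{0}, (∀ μ ∈ S, ∃ ν < μ, ν ≤ lam ∧ ¬ PolRelN μ ν) →
          ∃ ν < κ, ν ≤ lam ^ κ.ord.cof ∧ ¬ PolRelN κ ν := by
  refine ⟨fun μ hμ => ?_, ?_⟩
  · rw [polRelN_iff μ 2 Bool (by simp)]
    exact P238593.two_colours hμ
  · intro κ hcof hpow S hS lam hbad
    obtain ⟨Z, h1, h2, h3⟩ := P238593.reflection hcof hpow S hS lam (by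
      intro μ hμ
      obtain ⟨ν, hν, hl, h⟩ := hbad μ hμ
      refine ⟨ν.out, by rw [mk_out]; exact hν, by rw [mk_out]; exact hl, ?_⟩
      rwa [← polRelN_iff μ ν ν.out (mk_out _)])
    refine ⟨#Z, h1, h2, ?_⟩
    rwa [polRelN_iff κ #Z Z rfl]

end Pool.Agent.Results.MP_238593_lc.ManyColours
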